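import Pool.Agent.H77.SF.KT2

/-! Part K, module KVC: small transitive sets are elements of the small model. -/

open Ordinal Cardinal Order Set
open scoped ZFSet

namespace SF.H13

open SF

/-- a surjection does not raise the cardinality -/
theorem card_le_of_onto {f x y : V} (h : Onto f x y) : y.card ≤ x.card := by
  have hs : Function.Surjective
      (fun a : {a // a ∈ x} => (⟨app f a.1, app_mem h.1 a.2⟩ : {b // b ∈ y})) := by
    rintro ⟨b, hb⟩
    obtain ⟨a, ha, hab⟩ := h.2 b hb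
    exact ⟨⟨a, ha⟩, Subtype.ext (app_eq (svl_of_isFunc h.1) hab)⟩
  have h1 := Cardinal.mk_le_of_surjective hs
  have h2 : lift.{1, 0} y.card ≤ lift.{1, 0} x.card := by
    rw [← ZFSet.cardinalMk_coe_sort, ← ZFSet.cardinalMk_coe_sort]
    exact h1
  exact Cardinal.lift_le.1 h2

/-- an injection of a nonempty set gives a surjection -/
theorem onto_of_card_le {x y : V} (h : y.card ≤ x.card) {b0 : V} (hb0 : b0 ∈ y) :
    ∃ f, Onto f x y ∧ f ⊆ ZFSet.prod x y := by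
  classical
  have h2 : lift.{1, 0} y.card ≤ lift.{1, 0} x.card := Cardinal.lift_le.2 h
  rw [← ZFSet.cardinalMk_coe_sort, ← ZFSet.cardinalMk_coe_sort] at h2
  obtain ⟨g⟩ := h2
  set F : V → V := fun a => if h : ∃ b : {b // b ∈ y}, (g b).1 = a then h.choose.1 else b0 with hF
  have hFy : ∀ a ∈ x, F a ∈ y := by
    intro a _
    rw [hF]
    dsimp only
    split_ifs with h
    · exact h.choose.2
    · exact hb0
  have hfun := isFunc_resS x y F hFy
  refine ⟨resS x F, ⟨hfun, ?_⟩, hfun.1⟩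
  intro b hb
  refine ⟨(g ⟨b, hb⟩).1, (g ⟨b, hb⟩).2, ?_⟩
  rw [mem_resS]
  refine ⟨(g ⟨b, hb⟩).1, (g ⟨b, hb⟩).2, ?_⟩
  congr 1
  have hex : ∃ b' : {b // b ∈ y}, (g b').1 = (g ⟨b, hb⟩).1 := ⟨⟨b, hb⟩, rfl⟩
  rw [hF]
  dsimp only
  rw [dif_pos hex]
  have h3 := hex.choose_spec
  have h4 : hex.choose = ⟨b, hb⟩ := g.injective (Subtype.ext h3)
  rw [h4]

/-- the ranks of the elements of a transitive set -/
theorem exists_rank_eq {N : V} (hN : N.IsTransitive) (y : V) :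
    y ∈ N → ∀ β : Ordinal.{0}, β ≤ y.rank → ∃ z ∈ N, z.rank = β := by
  induction y using ZFSet.inductionOn with
  | _ y ih =>
    intro hy β hβ
    rcases hβ.lt_or_eq with h | h
    · obtain ⟨z, hz, hz2⟩ := ZFSet.lt_rank_iff.1 h
      exact ih z hz (hN.mem_trans hz hy) β hz2
    · exact ⟨y, hy, h.symm⟩

theorem card_rank_le {N : V} (hN : N.IsTransitive) : N.rank.card ≤ N.card := by
  have hs : Function.Surjective
      (fun x : {x // x ∈ N} => (⟨x.1.rank, ZFSet.rank_lt_of_mem x.2⟩ : Iio N.rank)) := by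
    rintro ⟨β, hβ⟩
    obtain ⟨y, hy, hy2⟩ := ZFSet.lt_rank_iff.1 hβ
    obtain ⟨z, hz, hz2⟩ := exists_rank_eq hN y hy β hy2
    exact ⟨⟨z, hz⟩, Subtype.ext hz2⟩
  have h1 := Cardinal.mk_le_of_surjective hs
  have h2 : lift.{1, 0} N.rank.card ≤ lift.{1, 0} N.card := by
    rw [← ZFSet.cardinalMk_coe_sort, ← Cardinal.mk_Iio_ordinal]
    exact h1
  exact Cardinal.lift_le.1 h2

/-- `v 0` is not mapped onto some ordinal above `ω` -/
def RR (M : V → Prop) (v : ℕ → V) : Prop :=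
  ∃ a, M a ∧ IsOrd a ∧ om ∈ a ∧ ¬ ∃ f, M f ∧ Onto f (v 0) a

theorem dfb_RR : Dfb KPw RR := by
  have h1 : Dfb ZFm (fun M v => ∃ f, M f ∧ Onto (cons f v 0) (cons f v 2) (cons f v 1)) :=
    (Dfb.onto (Tm.var 0) (Tm.var 2) (Tm.var 1)).ex
  have h2 : Dfb ZFm RR :=
    (((Dfb.isOrd (Tm.var 0)).and ((Dfb.mem Tm.om (Tm.var 0)).and h1.not)).ex).congr
      fun M _ v _ => Iff.rfl
  exact h2.mono fun M h => h.1

theorem rr_al (v : ℕ → V) : RR Al v := by
  refine ⟨(succ (max ℵ₀ (v 0).card)).ord.toZFSet, trivial, ⟨_, rfl⟩, ?_, ?_⟩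
  · show (ω : Ordinal.{0}).toZFSet ∈ _
    rw [Ordinal.toZFSet_mem_toZFSet_iff, Cardinal.lt_ord, Ordinal.card_omega0]
    exact lt_succ_of_le (le_max_left _ _)
  · rintro ⟨f, -, hf⟩
    have h1 := card_le_of_onto hf
    rw [Ordinal.card_toZFSet, Cardinal.card_ord] at h1
    exact absurd (lt_succ_of_le (le_max_right ℵ₀ (v 0).card)) (not_lt.2 h1)

theorem kvc (hKM : T_KM) (hLED : T_LED) : T_KVC := by
  intro κ' κ lam' lam j hj t ht N0 hN0 hc
  obtain ⟨hk1, hk2, hk3, -, -⟩ := hKM κ' κ lam' lam j hj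
  have hlam : ∀ v : ℕ → V, (∀ i, v i ∈ V_ lam) → RR (· ∈ V_ lam) v := by
    intro v hv
    obtain ⟨φ, hφ⟩ := dfb_RR
    exact (hφ _ hk2 v hv).1 ((hj.elV φ v hv).2 ((hφ _ hk3 v fun _ => trivial).2 (rr_al v)))
  have hlam' : RR (· ∈ V_ lam') (fun _ => t) :=
    (hLED KPw RR dfb_RR (V_ lam') (V_ lam) j hj.el hk1 hk2 (fun _ => t) fun _ => ht).2
      (hlam _ fun _ => app_mem hj.el.func ht)
  obtain ⟨a, ha, ⟨α, rfl⟩, hom, hno⟩ := hlam'
  have hα : α < lam' := by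
    have := ZFSet.mem_vonNeumann.1 ha
    rwa [Ordinal.rank_toZFSet] at this
  have hcard : t.card < α.card := by
    by_contra hcon
    rw [not_lt, ← Ordinal.card_toZFSet] at hcon
    obtain ⟨f, hf, hf2⟩ := onto_of_card_le hcon hom
    refine hno ⟨f, ?_, hf⟩
    have hp : ZFSet.prod t α.toZFSet ∈ V_ lam' :=
      (Tm.prod (Tm.var 0) (Tm.var 1)).1 _ hk1.1 (cons t fun _ => α.toZFSet) fun i => by
        cases i with
        | zero => exact ht
        | succ n => exact ha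
    exact ZFSet.mem_vonNeumann_of_subset hf2 hp
  have h1 : N0.rank.card < α.card := ((card_rank_le hN0).trans hc).trans_lt hcard
  have h2 : N0.rank < α := by
    by_contra hcon
    exact absurd (Ordinal.card_le_card (not_lt.1 hcon)) (not_le.2 h1)
  exact ZFSet.mem_vonNeumann.2 (h2.trans hα)

end SF.H13
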