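import Pool.Agent.H84.SF.Loc
import Pool.Agent.H72.OD.PSH

/-!
# MP_70ba79_ag: the Taylor homomorphism (row TAY of the board `sfc_modules`)
-/

set_option autoImplicit false

namespace Pool.Agent.H13.SF

open MvPolynomial SC Pool.Agent.H84.SF
open Pool.Agent.H27.LV (ge deg poleOrder canDeg)
open Pool.Agent.H92.OD (HS cf sg uu Lat geO IsO DF DD)
open Pool.Agent.H84.SM (y1 y2 Near)

section Taylor

variable {k O : Type} [Field k] [CommRing O] [Algebra k O]

/-- the Taylor series -/
noncomputable def tay (ε : O →ₐ[k] k) (dX : Derivation k O O) (h : O) : PowerSeries k :=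
  PowerSeries.mk fun i => ε (dX^[i] h) / (i.factorial : k)

theorem coeff_tay (ε : O →ₐ[k] k) (dX : Derivation k O O) (h : O) (i : ℕ) :
    PowerSeries.coeff i (tay ε dX h) = ε (dX^[i] h) / (i.factorial : k) :=
  PowerSeries.coeff_mk i _

theorem iter_add (dX : Derivation k O O) (n : ℕ) : ∀ a b : O,
    dX^[n] (a + b) = dX^[n] a + dX^[n] b := by
  induction n with
  | zero => intro a b; rfl
  | succ n ih =>
    intro a b
    rw [Function.iterate_succ_apply, Function.iterate_succ_apply, Function.iterate_succ_apply,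
      map_add, ih]

theorem iter_zero (dX : Derivation k O O) (n : ℕ) : dX^[n] (0 : O) = 0 := by
  induction n with
  | zero => rfl
  | succ n ih => rw [Function.iterate_succ_apply, map_zero, ih]

theorem tay_add (ε : O →ₐ[k] k) (dX : Derivation k O O) (a b : O) :
    tay ε dX (a + b) = tay ε dX a + tay ε dX b := by
  ext i
  rw [map_add, coeff_tay, coeff_tay, coeff_tay, iter_add, map_add, add_div]

theorem tay_zero (ε : O →ₐ[k] k) (dX : Derivation k O O) : tay ε dX 0 = 0 := by
  ext i
  rw [coeff_tay, iter_zero, map_zero, zero_div, map_zero]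

theorem coeff_tay_succ [CharZero k] (ε : O →ₐ[k] k) (dX : Derivation k O O) (h : O) (i : ℕ) :
    PowerSeries.coeff i (tay ε dX (dX h)) =
      PowerSeries.coeff (i + 1) (tay ε dX h) * ((i : k) + 1) := by
  rw [coeff_tay, coeff_tay, Function.iterate_succ_apply, Nat.factorial_succ]
  have h1 : ((i : k) + 1) ≠ 0 := by exact_mod_cast Nat.succ_ne_zero i
  have h2 : (i.factorial : k) ≠ 0 := by exact_mod_cast Nat.factorial_ne_zero i
  push_cast
  field_simp

theorem der_tay [CharZero k] (ε : O →ₐ[k] k) (dX : Derivation k O O) (h : O) :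
    PowerSeries.derivative k (tay ε dX h) = tay ε dX (dX h) := by
  ext i
  rw [PowerSeries.coeff_derivative, coeff_tay_succ]

theorem coeff_tay_mul [CharZero k] (ε : O →ₐ[k] k) (dX : Derivation k O O) (n : ℕ) : ∀ a b : O,
    PowerSeries.coeff n (tay ε dX (a * b)) = PowerSeries.coeff n (tay ε dX a * tay ε dX b) := by
  induction n with
  | zero =>
    intro a b
    have h0 : ∀ f g : PowerSeries k, PowerSeries.coeff 0 (f * g) =
        PowerSeries.coeff 0 f * PowerSeries.coeff 0 g := by
      intro f g
      simp
    rw [h0, coeff_tay, coeff_tay, coeff_tay]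
    simp
  | succ n ih =>
    intro a b
    have h1 : ((n : k) + 1) ≠ 0 := by exact_mod_cast Nat.succ_ne_zero n
    apply mul_right_cancel₀ h1
    rw [← coeff_tay_succ, ← PowerSeries.coeff_derivative, Derivation.leibniz, Derivation.leibniz,
      der_tay, der_tay, smul_eq_mul, smul_eq_mul, smul_eq_mul, smul_eq_mul, tay_add, map_add,
      map_add, ih, ih]

theorem tay_algebraMap (ε : O →ₐ[k] k) (dX : Derivation k O O) (c : k) :
    tay ε dX (algebraMap k O c) = PowerSeries.C c := by
  ext i
  rw [coeff_tay, PowerSeries.coeff_C]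
  cases i with
  | zero => simp
  | succ n =>
    rw [Function.iterate_succ_apply, Derivation.map_algebraMap, iter_zero, map_zero, zero_div,
      if_neg (Nat.succ_ne_zero n)]

/-- the Taylor homomorphism -/
noncomputable def tayH [CharZero k] (ε : O →ₐ[k] k) (dX : Derivation k O O) : O →+* PowerSeries k where
  toFun := tay ε dX
  map_one' := by
    have h := tay_algebraMap ε dX (1 : k)
    rwa [map_one, map_one] at h
  map_mul' a b := by
    ext n
    exact coeff_tay_mul ε dX n a b
  map_zero' := tay_zero ε dX
  map_add' := tay_add ε dX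

end Taylor

theorem pf_TAY : T_TAY := by
  intro k O _ _ _ _ ε X G dX dG hF
  obtain ⟨e, hC, hX, hc, hz⟩ := Pool.Agent.H72.OD.pf_PSH k 1 one_pos
  have eX : ε X = 0 := (hF.max X).2 ⟨1, 0, by ring⟩
  have eG : ε G = 0 := (hF.max G).2 ⟨0, 1, by ring⟩
  have tX : tay ε dX X = PowerSeries.X := by
    ext i
    rw [coeff_tay, PowerSeries.coeff_X]
    rcases i with _ | _ | n
    · rw [Function.iterate_zero, id, eX, zero_div, if_neg (by norm_num)]
    · rw [Function.iterate_succ_apply, Function.iterate_zero, id, hF.xx]
      simp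
    · rw [Function.iterate_succ_apply, Function.iterate_succ_apply, hF.xx,
        Derivation.map_one_eq_zero, iter_zero, map_zero, zero_div, if_neg (by omega)]
  have tG : tay ε dX G = 0 := by
    ext i
    rw [coeff_tay, map_zero]
    rcases i with _ | n
    · rw [Function.iterate_zero, id, eG, zero_div]
    · rw [Function.iterate_succ_apply, hF.xg, iter_zero, map_zero, zero_div]
  let c : O →ₐ[k] HS k :=
    { toRingHom := e.comp (tayH ε dX)
      commutes' := fun r => by
        change e (tay ε dX (algebraMap k O r)) = _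
        rw [tay_algebraMap, hC] }
  have cdef : ∀ h, c h = e (tay ε dX h) := fun h => rfl
  have hcf : ∀ (f : PowerSeries k) (m : ℕ), cf (e f) (m : ℚ) = PowerSeries.coeff m f := by
    intro f m
    have h := hc f m
    rwa [Nat.cast_one, div_one] at h
  have hzf : ∀ (f : PowerSeries k) (r : ℚ), (∀ m : ℕ, r ≠ (m : ℚ)) → cf (e f) r = 0 := by
    intro f r h
    apply hz f r
    intro m
    rw [Nat.cast_one, div_one]
    exact h m
  have cG : c G = 0 := by rw [cdef, tG, map_zero]
  refine ⟨c, ⟨?_, ⟨1, one_pos, ?_⟩, ?_⟩, cG, ?_⟩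
  · rw [cdef, tX, hX, Nat.cast_one, div_one]
    rfl
  · intro s _
    rw [cG]
    rfl
  · intro h s hs
    rw [cdef]
    apply hzf
    intro m hm
    have : (0 : ℚ) ≤ (m : ℚ) := Nat.cast_nonneg m
    linarith
  · intro h
    constructor
    · intro r hr
      by_contra hne
      apply hr
      rw [cdef]
      apply hzf
      intro m hm
      apply hne
      exact ⟨m, by rw [hm, Nat.cast_one, mul_one]; norm_cast⟩
    · have h0 := hcf (tay ε dX h) 0
      rw [Nat.cast_zero] at h0
      rw [cdef, h0, coeff_tay]
      simp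

end Pool.Agent.H13.SF
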