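import Pool.Agent.H3.SF.Targets

/-!
Row W6B of the board spw_modules (`MP_634266_nt`): the Euler product over the odd primes.
-/

set_option autoImplicit false

namespace Pool.Agent.H13.SF

open Pool.Agent.H3.SF Pool.Agent.H99.SQ
open Filter Topology Finset

theorem ins_FF (Y : ℕ) (hY : 2 ≤ Y) : Nat.primesBelow (Y + 1) = insert 2 (FF Y) := by
  ext p
  unfold FF
  rw [Nat.mem_primesBelow, Finset.mem_insert, Finset.mem_filter, Finset.mem_range]
  constructor
  · rintro ⟨h1, h2⟩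
    by_cases h : p = 2
    · exact Or.inl h
    · exact Or.inr ⟨h1, h2, h⟩
  · rintro (h | ⟨h1, h2, _⟩)
    · rw [h]
      exact ⟨by omega, Nat.prime_two⟩
    · exact ⟨h1, h2⟩

theorem lim_all : Tendsto (fun n : ℕ => ∏ p ∈ Nat.primesBelow n, (1 - 1 / (p : ℝ) ^ 2)) atTop
    (𝓝 (6 / Real.pi ^ 2)) := by
  have hz := riemannZeta_eulerProduct (s := 2) (by norm_num)
  rw [riemannZeta_two] at hz
  have h1 : ∀ n : ℕ, ∏ p ∈ Nat.primesBelow n, (1 - (p : ℂ) ^ (-(2 : ℂ)))⁻¹ =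
      ((∏ p ∈ Nat.primesBelow n, (1 - 1 / (p : ℝ) ^ 2)⁻¹ : ℝ) : ℂ) := by
    intro n
    rw [Complex.ofReal_prod]
    refine Finset.prod_congr rfl fun p _ => ?_
    rw [Complex.cpow_neg, Complex.cpow_ofNat]
    push_cast
    rw [one_div]
  simp only [h1] at hz
  have h2 := (Complex.continuous_re.tendsto _).comp hz
  have e : (((Real.pi : ℂ) ^ 2 / 6)).re = Real.pi ^ 2 / 6 := by
    have : ((Real.pi : ℂ) ^ 2 / 6) = ((Real.pi ^ 2 / 6 : ℝ) : ℂ) := by push_cast; ring
    rw [this, Complex.ofReal_re]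
  rw [e] at h2
  have h3 := h2.inv₀ (by positivity)
  have e2 : (Real.pi ^ 2 / 6)⁻¹ = 6 / Real.pi ^ 2 := by rw [inv_div]
  rw [e2] at h3
  refine h3.congr fun n => ?_
  simp only [Function.comp_apply, Complex.ofReal_re]
  rw [← Finset.prod_inv_distrib]
  exact Finset.prod_congr rfl fun p _ => inv_inv _

theorem pf_W6B : T_W6B := by
  have h1 := (lim_all.comp (tendsto_add_atTop_nat 1)).const_mul (4 / 3)
  have e : (4 : ℝ) / 3 * (6 / Real.pi ^ 2) = 8 / Real.pi ^ 2 := by ring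
  rw [e] at h1
  refine h1.congr' (eventually_atTop.2 ⟨2, fun Y hY => ?_⟩)
  rw [Function.comp_apply, ins_FF Y hY, Finset.prod_insert (by simp [FF])]
  norm_num
  ring

end Pool.Agent.H13.SF
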